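import Mathlib

/-!
A lower bound, linear in the dimension, for the constant `c(d)` comparing coverings of the
integer points of a convex body by hyperplanes and by parallel hyperplanes.
-/

namespace Pool.Agent.Results.MP_b10815_co.LinearLowerBound

open Set Metric

/-- A convex body: a compact convex set with nonempty interior. -/
def IsConvexBody {d : ℕ} (K : Set (EuclideanSpace ℝ (Fin d))) : Prop :=
  IsCompact K ∧ Convex ℝ K ∧ (interior K).Nonempty

/-- The integer points of `K`. -/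
def intPoints {d : ℕ} (K : Set (EuclideanSpace ℝ (Fin d))) : Set (EuclideanSpace ℝ (Fin d)) :=
  {x | x ∈ K ∧ ∀ i, ∃ z : ℤ, x i = (z : ℝ)}

/-- `S` is contained in a union of `N` affine hyperplanes. -/
def CoveredBy {d : ℕ} (S : Set (EuclideanSpace ℝ (Fin d))) (N : ℕ) : Prop :=
  ∃ (u : Fin N → EuclideanSpace ℝ (Fin d)) (c : Fin N → ℝ), (∀ i, u i ≠ 0) ∧
    ∀ x ∈ S, ∃ i, inner ℝ x (u i) = c i

/-- `S` is contained in a union of `m` parallel affine hyperplanes (common normal `u`). -/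
def CoveredByParallel {d : ℕ} (S : Set (EuclideanSpace ℝ (Fin d))) (m : ℕ) : Prop :=
  ∃ (u : EuclideanSpace ℝ (Fin d)) (c : Fin m → ℝ), u ≠ 0 ∧
    ∀ x ∈ S, ∃ i, inner ℝ x u = c i

/-- The real number `c > 0` is admissible in dimension `d`: for every convex body `K` and `N ≥ 1`,
if the integer points of `K` are covered by `N` hyperplanes then they are covered by at most
`c N` parallel hyperplanes. -/
def Admissible (d : ℕ) (c : ℝ) : Prop :=
  0 < c ∧ ∀ K : Set (EuclideanSpace ℝ (Fin d)), IsConvexBody K → ∀ N : ℕ, 1 ≤ N →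
    CoveredBy (intPoints K) N → ∃ m : ℕ, (m : ℝ) ≤ c * N ∧ CoveredByParallel (intPoints K) m

variable {n : ℕ}

/-- The convex body (in dimension `d = n + 2`, with `b = ⌊(d+1)/2⌋`). -/
def body (n b : ℕ) : Set (EuclideanSpace ℝ (Fin (n + 2))) :=
  {x | (∀ l : Fin n, |x 0| ≤ b * x l.succ.succ) ∧
    b * ∑ l : Fin n, x l.succ.succ + 2 * |x 0| + (n + 2) * |x 1| ≤ b * (n + 2)}

lemma coord_le {d : ℕ} (x : EuclideanSpace ℝ (Fin d)) (i : Fin d) : |x i| ≤ ‖x‖ := by
  simpa using PiLp.norm_apply_le x i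

lemma norm_le_sum {d : ℕ} (x : EuclideanSpace ℝ (Fin d)) (M : ℝ) (hM : ∀ i, |x i| ≤ M) :
    ‖x‖ ≤ Real.sqrt (d * M ^ 2) := by
  rw [EuclideanSpace.norm_eq]
  apply Real.sqrt_le_sqrt
  calc ∑ i, ‖x i‖ ^ 2 ≤ ∑ _i : Fin d, M ^ 2 := by
        apply Finset.sum_le_sum
        intro i _
        rw [Real.norm_eq_abs]
        exact pow_le_pow_left₀ (abs_nonneg _) (hM i) 2
    _ = d * M ^ 2 := by simp

lemma body_bounds (b : ℕ) (hb : 1 ≤ b) (x : EuclideanSpace ℝ (Fin (n + 2)))
    (hx : x ∈ body n b) : ∀ i, |x i| ≤ (b : ℝ) * (n + 2) := by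
  obtain ⟨h1, h2⟩ := hx
  have hbpos : (1 : ℝ) ≤ b := by exact_mod_cast hb
  have hn : (0 : ℝ) ≤ n := Nat.cast_nonneg n
  have hl : ∀ l : Fin n, 0 ≤ x l.succ.succ := by
    intro l
    have := h1 l
    have h0 := abs_nonneg (x 0)
    by_contra hcon
    push Not at hcon
    nlinarith
  have hsum : ∀ l : Fin n, x l.succ.succ ≤ ∑ l : Fin n, x l.succ.succ := fun l =>
    Finset.single_le_sum (fun i _ => hl i) (Finset.mem_univ l)
  have hs0 : 0 ≤ ∑ l : Fin n, x l.succ.succ := Finset.sum_nonneg (fun i _ => hl i)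
  have h0 := abs_nonneg (x 0)
  have h1' := abs_nonneg (x 1)
  have hbs : 0 ≤ b * ∑ l : Fin n, x l.succ.succ := mul_nonneg (by linarith) hs0
  intro i
  refine Fin.cases ?_ (fun i => Fin.cases ?_ (fun l => ?_) i) i
  · nlinarith
  · have e : (Fin.succ 0 : Fin (n + 2)) = 1 := rfl
    rw [e]
    nlinarith
  · rw [abs_of_nonneg (hl l)]
    have := hsum l
    have h3 : (n + 2) * |x 1| ≥ 0 := by positivity
    nlinarith

lemma body_convexBody (b : ℕ) (hb : 1 ≤ b) : IsConvexBody (body n b) := by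
  have hbpos : (1 : ℝ) ≤ b := by exact_mod_cast hb
  refine ⟨?_, ?_, ?_⟩
  · apply Metric.isCompact_of_isClosed_isBounded
    · have e : body n b = (⋂ l : Fin n, {x : EuclideanSpace ℝ (Fin (n + 2)) |
          |x 0| ≤ b * x l.succ.succ}) ∩ {x | b * ∑ l : Fin n, x l.succ.succ + 2 * |x 0| +
            (n + 2) * |x 1| ≤ b * (n + 2)} := by
        ext x; simp [body]
      rw [e]
      apply IsClosed.inter
      · apply isClosed_iInter
        intro l
        exact isClosed_le (by fun_prop) (by fun_prop)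
      · exact isClosed_le (by fun_prop) continuous_const
    · rw [isBounded_iff_forall_norm_le]
      exact ⟨_, fun x hx => norm_le_sum x _ (body_bounds b hb x hx)⟩
  · intro x hx y hy s t hs ht hst
    obtain ⟨h1, h2⟩ := hx
    obtain ⟨g1, g2⟩ := hy
    have a0 : |s * x 0 + t * y 0| ≤ s * |x 0| + t * |y 0| := by
      refine (abs_add_le _ _).trans ?_
      rw [abs_mul, abs_mul, abs_of_nonneg hs, abs_of_nonneg ht]
    have a1 : |s * x 1 + t * y 1| ≤ s * |x 1| + t * |y 1| := by
      refine (abs_add_le _ _).trans ?_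
      rw [abs_mul, abs_mul, abs_of_nonneg hs, abs_of_nonneg ht]
    refine ⟨?_, ?_⟩
    · intro l
      simp only [PiLp.add_apply, PiLp.smul_apply, smul_eq_mul]
      have k1 := mul_le_mul_of_nonneg_left (h1 l) hs
      have k2 := mul_le_mul_of_nonneg_left (g1 l) ht
      linarith
    · simp only [PiLp.add_apply, PiLp.smul_apply, smul_eq_mul, Finset.sum_add_distrib,
        ← Finset.mul_sum]
      have k1 := mul_le_mul_of_nonneg_left h2 hs
      have k2 := mul_le_mul_of_nonneg_left g2 ht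
      have hn : (0 : ℝ) ≤ n + 2 := by positivity
      have k3 := mul_le_mul_of_nonneg_left a1 hn
      have e : b * ((n : ℝ) + 2) = s * (b * (n + 2)) + t * (b * (n + 2)) := by
        rw [← add_mul, hst, one_mul]
      rw [e]
      linarith
  · have hopen : IsOpen ((⋂ l : Fin n, {x : EuclideanSpace ℝ (Fin (n + 2)) |
          |x 0| < b * x l.succ.succ}) ∩ {x | b * ∑ l : Fin n, x l.succ.succ + 2 * |x 0| +
            (n + 2) * |x 1| < b * (n + 2)}) := by
      apply IsOpen.inter
      · apply isOpen_iInter_of_finite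
        intro l
        exact isOpen_lt (by fun_prop) (by fun_prop)
      · exact isOpen_lt (by fun_prop) continuous_const
    refine ⟨WithLp.toLp 2 (Fin.cons 0 (Fin.cons 0 (fun _ => 1 / 2))), ?_⟩
    rw [mem_interior]
    refine ⟨_, ?_, hopen, ?_⟩
    · rintro x ⟨h1, h2⟩
      rw [mem_iInter] at h1
      exact ⟨fun l => (h1 l).le, le_of_lt h2⟩
    · refine ⟨?_, ?_⟩
      · rw [mem_iInter]
        intro l
        have e1 : (Fin.cons 0 (Fin.cons 0 (fun _ => 1 / 2)) : Fin (n + 2) → ℝ) l.succ.succ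
            = 1 / 2 := rfl
        simp only [mem_ofPred_eq, Fin.cons_zero, abs_zero, e1]
        linarith
      · have e1 : ∀ l : Fin n, (Fin.cons 0 (Fin.cons 0 (fun _ => 1 / 2)) : Fin (n + 2) → ℝ)
            l.succ.succ = 1 / 2 := fun _ => rfl
        have e2 : (Fin.cons 0 (Fin.cons 0 (fun _ => 1 / 2)) : Fin (n + 2) → ℝ) 1 = 0 := rfl
        simp only [mem_ofPred_eq, Fin.cons_zero, abs_zero, e1, e2, Finset.sum_const,
          Finset.card_univ, Fintype.card_fin, nsmul_eq_mul]
        have hn : (0 : ℝ) ≤ n := Nat.cast_nonneg n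
        nlinarith

/-- Integer points of the body have `x 0 = 0` or `x 1 = 0`, provided `2 b < n + 4`. -/
lemma body_two (b : ℕ) (hb : 1 ≤ b) (hb2 : 2 * b < n + 4) (x : EuclideanSpace ℝ (Fin (n + 2)))
    (hx : x ∈ intPoints (body n b)) : x 0 = 0 ∨ x 1 = 0 := by
  obtain ⟨⟨h1, h2⟩, h3⟩ := hx
  by_contra hcon
  push Not at hcon
  obtain ⟨c0, c1⟩ := hcon
  have hbpos : (1 : ℝ) ≤ b := by exact_mod_cast hb
  have hint : ∀ i, x i ≠ 0 → 1 ≤ |x i| := by
    intro i hi
    obtain ⟨z, hz⟩ := h3 i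
    have hz0 : z ≠ 0 := by
      rintro rfl
      apply hi
      rw [hz]; simp
    have h5 := Int.one_le_abs hz0
    have h6 : (1 : ℝ) ≤ |(z : ℝ)| := by exact_mod_cast h5
    calc (1 : ℝ) ≤ |(z : ℝ)| := h6
      _ = |x i| := by rw [hz]
  have a0 := hint 0 c0
  have a1 := hint 1 c1
  have hl : ∀ l : Fin n, 1 ≤ x l.succ.succ := by
    intro l
    have hpos : 0 < x l.succ.succ := by
      have := h1 l
      by_contra hneg
      push Not at hneg
      nlinarith
    have := hint l.succ.succ hpos.ne'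
    rwa [abs_of_pos hpos] at this
  have hsum : (n : ℝ) ≤ ∑ l : Fin n, x l.succ.succ := by
    calc (n : ℝ) = ∑ _l : Fin n, (1 : ℝ) := by simp
      _ ≤ _ := Finset.sum_le_sum (fun l _ => hl l)
  have hn : (0 : ℝ) ≤ n := Nat.cast_nonneg n
  have k1 : (b : ℝ) * n ≤ b * ∑ l : Fin n, x l.succ.succ :=
    mul_le_mul_of_nonneg_left hsum (by linarith)
  have k2 : ((n : ℝ) + 2) * 1 ≤ (n + 2) * |x 1| := mul_le_mul_of_nonneg_left a1 (by linarith)
  have hb2' : (2 : ℝ) * b < n + 4 := by exact_mod_cast hb2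
  nlinarith

lemma body_coveredBy (b : ℕ) (hb : 1 ≤ b) (hb2 : 2 * b < n + 4) :
    CoveredBy (intPoints (body n b)) 2 := by
  refine ⟨![EuclideanSpace.single 0 1, EuclideanSpace.single 1 1], fun _ => 0, ?_, ?_⟩
  · intro i
    fin_cases i
    · simp
    · simp
  · intro x hx
    rcases body_two b hb hb2 x hx with h | h
    · refine ⟨0, ?_⟩
      simp [EuclideanSpace.inner_single_right, h]
    · refine ⟨1, ?_⟩
      simp [EuclideanSpace.inner_single_right, h]

/-- points of the first kind: `t e_l` for an extra coordinate `l` -/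
lemma mem_extra (b : ℕ) (l : Fin n) (t : ℕ) (ht : t ≤ n + 2) :
    (EuclideanSpace.single l.succ.succ (t : ℝ) : EuclideanSpace ℝ (Fin (n + 2))) ∈
      intPoints (body n b) := by
  have h0 : (EuclideanSpace.single l.succ.succ (t : ℝ) : EuclideanSpace ℝ (Fin (n + 2))) 0 = 0 := by
    rw [PiLp.single_apply, if_neg]
    exact (Fin.succ_ne_zero _).symm
  have h1 : (EuclideanSpace.single l.succ.succ (t : ℝ) : EuclideanSpace ℝ (Fin (n + 2))) 1 = 0 := by
    rw [PiLp.single_apply, if_neg]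
    intro h
    have : (Fin.succ 0 : Fin (n + 2)) = l.succ.succ := h
    exact (Fin.succ_ne_zero l) (Fin.succ_injective _ this).symm
  have hs : ∀ k : Fin n, (EuclideanSpace.single l.succ.succ (t : ℝ) :
      EuclideanSpace ℝ (Fin (n + 2))) k.succ.succ = if k = l then (t : ℝ) else 0 := by
    intro k
    rw [PiLp.single_apply]
    simp
  refine ⟨⟨?_, ?_⟩, ?_⟩
  · intro k
    rw [h0, hs]
    simp only [abs_zero]
    split_ifs <;> positivity
  · simp only [h0, h1, hs, Finset.sum_ite_eq', Finset.mem_univ, if_true, abs_zero, mul_zero,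
      add_zero]
    apply mul_le_mul_of_nonneg_left _ (Nat.cast_nonneg b)
    exact_mod_cast ht
  · intro i
    rw [PiLp.single_apply]
    split_ifs
    · exact ⟨t, by simp⟩
    · exact ⟨0, by simp⟩

/-- points of the second kind: `(i, 0, 1, ..., 1)` -/
noncomputable def pt0 (n : ℕ) (i : ℤ) : EuclideanSpace ℝ (Fin (n + 2)) :=
  WithLp.toLp 2 (Fin.cons (i : ℝ) (Fin.cons 0 (fun _ => 1)))

lemma mem_pt0 (b : ℕ) (i : ℤ) (hi : |i| ≤ b) : pt0 n i ∈ intPoints (body n b) := by
  have h0 : (pt0 n i) 0 = i := rfl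
  have h1 : (pt0 n i) 1 = 0 := rfl
  have hs : ∀ k : Fin n, (pt0 n i) k.succ.succ = 1 := fun _ => rfl
  have hi' : |(i : ℝ)| ≤ b := by exact_mod_cast hi
  refine ⟨⟨?_, ?_⟩, ?_⟩
  · intro k
    rw [h0, hs]
    linarith
  · simp only [h0, h1, hs, Finset.sum_const, Finset.card_univ, Fintype.card_fin, nsmul_eq_mul,
      abs_zero, mul_zero, add_zero, mul_one]
    linarith
  · intro j
    refine Fin.cases ⟨i, h0⟩ (fun j => Fin.cases ⟨0, by simpa using h1⟩ (fun l => ?_) j) j
    exact ⟨1, by rw [hs]; simp⟩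

/-- points of the third kind: `(0, j, 0, ..., 0)` -/
noncomputable def pt1 (n : ℕ) (j : ℤ) : EuclideanSpace ℝ (Fin (n + 2)) :=
  WithLp.toLp 2 (Fin.cons 0 (Fin.cons (j : ℝ) (fun _ => 0)))

lemma mem_pt1 (b : ℕ) (j : ℤ) (hj : |j| ≤ b) : pt1 n j ∈ intPoints (body n b) := by
  have h0 : (pt1 n j) 0 = 0 := rfl
  have h1 : (pt1 n j) 1 = j := rfl
  have hs : ∀ k : Fin n, (pt1 n j) k.succ.succ = 0 := fun _ => rfl
  have hj' : |(j : ℝ)| ≤ b := by exact_mod_cast hj
  refine ⟨⟨?_, ?_⟩, ?_⟩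
  · intro k
    rw [h0, hs]
    simp
  · simp only [h0, h1, hs, Finset.sum_const_zero, abs_zero, mul_zero, add_zero, zero_add]
    have hn : (0 : ℝ) ≤ n + 2 := by positivity
    nlinarith
  · intro i
    refine Fin.cases ⟨0, by simpa using h0⟩ (fun i => Fin.cases ⟨j, h1⟩ (fun l => ?_) i) i
    exact ⟨0, by rw [hs]; simp⟩

/-- If `S` is covered by `m` parallel hyperplanes and contains `r` points whose values are
distinct, then `r ≤ m`. -/
lemma count_values {d m r : ℕ} {S : Set (EuclideanSpace ℝ (Fin d))}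
    (u : EuclideanSpace ℝ (Fin d)) (c : Fin m → ℝ) (h : ∀ x ∈ S, ∃ i, inner ℝ x u = c i)
    (f : Fin r → EuclideanSpace ℝ (Fin d)) (hf : ∀ i, f i ∈ S)
    (hinj : Function.Injective (fun i => inner ℝ (f i) u)) : r ≤ m := by
  choose g hg using fun i => h (f i) (hf i)
  have : Function.Injective g := by
    intro i j hij
    apply hinj
    simp only [hg, hij]
  simpa using Fintype.card_le_of_injective g this

lemma inner_eq (x u : EuclideanSpace ℝ (Fin (n + 2))) :
    inner ℝ x u = x 0 * u 0 + (x 1 * u 1 + ∑ l : Fin n, x l.succ.succ * u l.succ.succ) := by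
  rw [PiLp.inner_apply, Fin.sum_univ_succ, Fin.sum_univ_succ]
  simp only [RCLike.inner_apply, conj_trivial]
  simp only [mul_comm]
  rfl

lemma parallel_ge (b : ℕ) (hb3 : n + 2 ≤ 2 * b) (m : ℕ)
    (hm : CoveredByParallel (intPoints (body n b)) m) : n + 3 ≤ m := by
  obtain ⟨u, c, hu, h⟩ := hm
  have hex : ∃ i, u i ≠ 0 := by
    by_contra hcon
    push Not at hcon
    apply hu
    ext i
    simpa using hcon i
  obtain ⟨i, hi⟩ := hex
  revert hi
  refine Fin.cases ?_ (fun i => Fin.cases ?_ (fun l => ?_) i) i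
  · intro hi
    -- points (s - b, 0, 1, ..., 1), s = 0 .. 2b
    have hr : 2 * b + 1 ≤ m := by
      refine count_values u c h (fun s : Fin (2 * b + 1) => pt0 n ((s : ℤ) - b)) ?_ ?_
      · intro s
        apply mem_pt0 b
        have := s.2
        rw [abs_le]; constructor <;> omega
      · intro s t hst
        simp only [inner_eq] at hst
        have e0 : ∀ i, (pt0 n i) 0 = i := fun _ => rfl
        have e1 : ∀ i, (pt0 n i) 1 = 0 := fun _ => rfl
        have e2 : ∀ i (l : Fin n), (pt0 n i) l.succ.succ = 1 := fun _ _ => rfl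
        simp only [e0, e1, e2] at hst
        have h3 : (((s : ℤ) - b : ℤ) : ℝ) * u 0 = (((t : ℤ) - b : ℤ) : ℝ) * u 0 := by linarith
        have h4 := mul_right_cancel₀ hi h3
        have h6 : (((s : ℤ) - b : ℤ) : ℝ) = (((t : ℤ) - b : ℤ) : ℝ) := h4
        have h5 : ((s : ℤ) - b : ℤ) = ((t : ℤ) - b : ℤ) := Int.cast_injective h6
        apply Fin.ext
        omega
    omega
  · intro hi
    have hr : 2 * b + 1 ≤ m := by
      refine count_values u c h (fun s : Fin (2 * b + 1) => pt1 n ((s : ℤ) - b)) ?_ ?_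
      · intro s
        apply mem_pt1 b
        have := s.2
        rw [abs_le]; constructor <;> omega
      · intro s t hst
        simp only [inner_eq] at hst
        have e0 : ∀ i, (pt1 n i) 0 = 0 := fun _ => rfl
        have e1 : ∀ i, (pt1 n i) 1 = i := fun _ => rfl
        have e2 : ∀ i (l : Fin n), (pt1 n i) l.succ.succ = 0 := fun _ _ => rfl
        simp only [e0, e1, e2] at hst
        have h3 : (((s : ℤ) - b : ℤ) : ℝ) * u 1 = (((t : ℤ) - b : ℤ) : ℝ) * u 1 := by linarith
        have h4 := mul_right_cancel₀ hi h3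
        have h6 : (((s : ℤ) - b : ℤ) : ℝ) = (((t : ℤ) - b : ℤ) : ℝ) := h4
        have h5 : ((s : ℤ) - b : ℤ) = ((t : ℤ) - b : ℤ) := Int.cast_injective h6
        apply Fin.ext
        omega
    omega
  · intro hi
    refine count_values u c h (fun s : Fin (n + 3) =>
      (EuclideanSpace.single l.succ.succ ((s : ℕ) : ℝ) : EuclideanSpace ℝ (Fin (n + 2)))) ?_ ?_
    · intro s
      exact mem_extra b l s (Nat.lt_succ_iff.mp s.2)
    · intro s t hst
      simp only [EuclideanSpace.inner_single_left, conj_trivial] at hst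
      have h4 := mul_right_cancel₀ hi hst
      have h6 : ((s : ℕ) : ℝ) = ((t : ℕ) : ℝ) := h4
      have h5 : (s : ℕ) = (t : ℕ) := Nat.cast_injective h6
      exact Fin.ext h5

/-- Every admissible constant in dimension `d ≥ 2` is at least `(d + 1) / 2`;
that is, `c(d) ≥ (d + 1) / 2`. -/
theorem result (d : ℕ) (hd : 2 ≤ d) (c : ℝ) (hc : Admissible d c) : ((d : ℝ) + 1) / 2 ≤ c := by
  obtain ⟨n, rfl⟩ : ∃ n, d = n + 2 := ⟨d - 2, by omega⟩
  set b := (n + 3) / 2 with hb
  have hb1 : 1 ≤ b := by omega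
  have hb2 : 2 * b < n + 4 := by omega
  have hb3 : n + 2 ≤ 2 * b := by omega
  obtain ⟨m, hm1, hm2⟩ := hc.2 (body n b) (body_convexBody b hb1) 2 (by norm_num)
    (body_coveredBy b hb1 hb2)
  have hm3 := parallel_ge b hb3 m hm2
  have : ((n : ℝ) + 3) ≤ m := by exact_mod_cast hm3
  push_cast at hm1 ⊢
  linarith

end Pool.Agent.Results.MP_b10815_co.LinearLowerBound
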